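import Pool.Agent.MP_cce4c9_lc.H7.BaseA

/-! The divisor and the values of a norm. -/

set_option autoImplicit false

open WithZero Module Finset

namespace Pool.Agent.MP_cce4c9_lc.H16

open Pool.Agent.MP_cce4c9_lc.H87

theorem det_tri {ι R : Type} [Fintype ι] [DecidableEq ι] [CommRing R] (A : Matrix ι ι R)
    (d : ι → ℕ) (h : ∀ i j, i ≠ j → d i ≤ d j → A i j = 0) : A.det = ∏ i, A i i := by
  rw [Matrix.det_apply, sum_eq_single (1 : Equiv.Perm ι)]
  · simp
  · intro σ _ hσ
    obtain ⟨j, hj, hm⟩ := exists_max_image σ.support d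
      (by rwa [nonempty_iff_ne_empty, Ne, Equiv.Perm.support_eq_empty_iff])
    rw [prod_eq_zero (f := fun i => A (σ i) i) (mem_univ j) (h _ _ (Equiv.Perm.mem_support.1 hj)
      (hm _ (Equiv.Perm.apply_mem_support.2 hj))), smul_zero]
  · simp

theorem le_exp_neg {a : ℤᵐ⁰} (h : a < 1) : a ≤ exp (-1 : ℤ) := by
  rw [← lt_mul_exp_iff_le exp_ne_zero, ← exp_add]
  simpa using h

theorem exp_one_le {a : ℤᵐ⁰} (h : 1 < a) : exp (1 : ℤ) ≤ a := by
  rw [← lt_mul_exp_iff_le (zero_lt_one.trans h).ne']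
  exact lt_mul_of_one_lt_left (zero_lt_iff.2 exp_ne_zero) h

theorem exp_pow (a : ℤ) (n : ℕ) : (exp a : ℤᵐ⁰) ^ n = exp (n * a) := by
  rw [← exp_nsmul, nsmul_eq_mul]

variable {k K L : Type} [Field k] [Field K] [Algebra k K] [Field L] [Algebra k L] [Algebra K L]

/-- The value at a place, as a ring homomorphism. -/
noncomputable def evH (x : Place k K) (H : x.Res) : x.val.integer →+* k where
  toFun a := x.ev a
  map_one' := x.ev_one
  map_zero' := x.ev_zero
  map_mul' a b := H.ev_mul a.2 b.2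
  map_add' a b := H.ev_add a.2 b.2

section Loc

variable {x : Place k K} {S : Finset (Place k L)} {e : Place k L → ℕ}
  (hO : ∀ y ∈ S, Over y x (e y)) {w : (Σ y : S, Fin (e y)) → L}
  (h1 : ∀ j : Σ y : S, Fin (e y), j.1.1.val (w j) = exp (-(j.2 : ℤ)))
  (h2 : ∀ j, ∀ y : S, y ≠ j.1 → y.1.val (w j) ≤ exp (-(e y : ℤ)))

include hO h1 h2

theorem key (c : (Σ y : S, Fin (e y)) → K) (hc : ∀ j, x.val (c j) ≤ 1) (j : Σ y : S, Fin (e y))
    (hj : x.val (c j) = 1) : exp (-(j.2 : ℤ)) ≤ j.1.1.val (∑ i, c i • w i) := by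
  classical
  obtain ⟨y, i0⟩ := j
  obtain ⟨i1, hi1, hm⟩ := exists_min_image (univ.filter fun i : Fin (e y) => x.val (c ⟨y, i⟩) = 1)
    (fun i => i) ⟨i0, mem_filter.2 ⟨mem_univ _, hj⟩⟩
  have hv : ∀ i, y.1.val (c i • w i) = x.val (c i) ^ e y * y.1.val (w i) := fun i => by
    rw [Algebra.smul_def, map_mul, (hO y y.2).2]
  have e1 : y.1.val (c ⟨y, i1⟩ • w ⟨y, i1⟩) = exp (-(i1 : ℤ)) := by
    rw [hv, (mem_filter.1 hi1).2, one_pow, one_mul, h1 ⟨y, i1⟩]
  have hlt : (exp (-(e y : ℤ)) : ℤᵐ⁰) < exp (-(i1 : ℤ)) := by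
    rw [exp_lt_exp]; have := i1.2; omega
  rw [y.1.val.map_sum_eq_of_lt (mem_univ ⟨y, i1⟩), e1, exp_le_exp]
  · have : i1 ≤ i0 := hm i0 (mem_filter.2 ⟨mem_univ _, hj⟩)
    have : (i1 : ℕ) ≤ i0 := this
    simp only
    omega
  · rintro ⟨y', i⟩ hi
    rw [e1, hv]
    rcases eq_or_ne y y' with rfl | hy
    · have hne : i ≠ i1 := fun h => by simp [h] at hi
      rw [h1 ⟨y, i⟩]
      rcases (hc ⟨y, i⟩).eq_or_lt with h | h
      · rw [h, one_pow, one_mul, exp_lt_exp]
        have h3 : i1 < i := lt_of_le_of_ne (hm i (mem_filter.2 ⟨mem_univ _, h⟩)) hne.symm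
        have : (i1 : ℕ) < i := h3
        simp only
        omega
      · refine (mul_le_mul_left (pow_le_pow_left' (le_exp_neg h) _) _).trans_lt ?_
        rw [exp_pow, ← exp_add, exp_lt_exp]
        have := i1.2
        simp only
        omega
    · exact ((mul_le_of_le_one_left' (pow_le_one' (hc _) _)).trans (h2 _ y hy)).trans_lt hlt

theorem coord (c : (Σ y : S, Fin (e y)) → K) (hc : ∀ y ∈ S, y.val (∑ i, c i • w i) ≤ 1)
    (j : Σ y : S, Fin (e y)) : x.val (c j) ≤ 1 := by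
  classical
  obtain ⟨j0, -, hm⟩ := exists_max_image univ (fun i => x.val (c i)) ⟨j, mem_univ _⟩
  refine (hm j (mem_univ _)).trans (not_lt.1 fun h => ?_)
  have h0 : x.val (c j0) ≠ 0 := (zero_lt_one.trans h).ne'
  have h3 := key hO h1 h2 (fun i => (c j0)⁻¹ * c i) (fun i => by
    rw [map_mul, map_inv₀, inv_mul_le_one₀ (zero_lt_iff.2 h0)]
    exact hm i (mem_univ _)) j0 (by rw [map_mul, map_inv₀, inv_mul_cancel₀ h0])
  simp only [mul_smul, ← smul_sum] at h3
  rw [Algebra.smul_def, map_mul, (hO _ j0.1.2).2, map_inv₀, inv_pow,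
    le_inv_mul_iff₀ (pow_pos (zero_lt_iff.2 h0) _)] at h3
  have h4 := (mul_le_mul_left (pow_le_pow_left' (exp_one_le h) _) _).trans
    (h3.trans (hc _ j0.1.2))
  rw [exp_pow, ← exp_add, ← exp_zero, exp_le_exp] at h4
  have := j0.2.2
  omega

theorem indep : LinearIndependent K w := by
  rw [Fintype.linearIndependent_iff]
  intro c hc j
  by_contra h0
  obtain ⟨t, ht⟩ := x.surj (exp (1 : ℤ))
  have h3 := coord hO h1 h2 (fun i => t * (c j)⁻¹ * c i) (fun y _ => by
    simp only [mul_smul, ← smul_sum, hc, smul_zero, map_zero, zero_le]) j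
  rw [inv_mul_cancel_right₀ h0, ht, ← exp_zero, exp_le_exp] at h3
  omega

variable [IsScalarTower k K L] [FiniteDimensional K L]

theorem norm_ev' (hs : ∑ y ∈ S, e y = finrank K L) (hx : x.Res) (hy : ∀ y ∈ S, y.Res) (f : L)
    (hf : ∀ y ∈ S, y.val f ≤ 1) : x.val (Algebra.norm K f) ≤ 1 ∧
      x.ev (Algebra.norm K f) = ∏ y ∈ S, y.ev f ^ e y := by
  classical
  have hc : Fintype.card (Σ y : S, Fin (e y)) = finrank K L := by
    rw [Fintype.card_sigma, ← hs, ← sum_coe_sort S]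
    simp
  have : Nonempty (Σ y : S, Fin (e y)) := Fintype.card_pos_iff.1 (hc ▸ finrank_pos)
  set b := basisOfLinearIndependentOfCardEqFinrank (indep hO h1 h2) hc with hb
  have hbw : ∀ j, b j = w j := fun j => by
    rw [hb, coe_basisOfLinearIndependentOfCardEqFinrank]
  have hr : ∀ g : L, ∑ i, b.repr g i • w i = g := fun g => by
    simp only [← hbw, b.sum_repr]
  have hw : ∀ j, ∀ y ∈ S, y.val (w j) ≤ 1 := fun j y hy => by
    rcases eq_or_ne (⟨y, hy⟩ : S) j.1 with h | h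
    · rw [show y = j.1.1 from congrArg Subtype.val h, h1, ← exp_zero, exp_le_exp]
      omega
    · refine (h2 j _ h).trans ?_
      rw [← exp_zero, exp_le_exp]
      omega
  have hi : ∀ g : L, (∀ y ∈ S, y.val g ≤ 1) → ∀ i j, x.val (b.repr (g * w j) i) ≤ 1 :=
    fun g hg i j => coord hO h1 h2 _ (fun y hy => by
      rw [hr, map_mul]; exact mul_le_one' (hg y hy) (hw j y hy)) i
  set M : Matrix _ _ x.val.integer := fun i j => ⟨b.repr (f * w j) i, hi f hf i j⟩ with hM
  have e1 : Algebra.norm K f = (M.det : K) := by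
    rw [Algebra.norm_eq_matrix_det b]
    refine Eq.trans ?_ (x.val.integer.subtype.map_det M).symm
    congr 1
    ext i j
    rw [Algebra.leftMulMatrix_eq_repr_mul, hbw]
    rfl
  have e2 : ∀ i j, (i.2 : ℕ) ≤ j.2 →
      (evH x hx).mapMatrix M i j = if i = j then j.1.1.ev f else 0 := by
    intro i j hij
    set g := f - algebraMap k L (j.1.1.ev f) with hg
    have hg1 : ∀ y ∈ S, y.val g ≤ 1 := fun y hy =>
      (y.val.map_sub _ _).trans (max_le (hf y hy) (y.const_le _))
    have h3 : x.val (b.repr (g * w j) i) < 1 := by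
      refine lt_of_le_of_ne (hi g hg1 i j) fun h => ?_
      have h4 := key hO h1 h2 _ (fun i => hi g hg1 i j) i h
      rw [hr, map_mul] at h4
      refine absurd h4 (not_le.2 ?_)
      rcases eq_or_ne i.1 j.1 with h5 | h5
      · rw [show i.1.1.val = j.1.1.val by rw [h5], h1]
        refine (mul_lt_of_lt_one_left (zero_lt_iff.2 exp_ne_zero)
          ((hy _ j.1.2).ev_spec (hf _ j.1.2))).trans_le ?_
        rw [exp_le_exp]
        omega
      · refine ((mul_le_of_le_one_left' (hg1 _ i.1.2)).trans (h2 j _ h5)).trans_lt ?_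
        rw [exp_lt_exp]
        have := i.2.2
        omega
    refine x.ev_eq (h3.trans_eq' (congrArg x.val ?_))
    rw [hg, sub_mul, map_sub, IsScalarTower.algebraMap_apply k K L, ← Algebra.smul_def, map_smul,
      ← hbw j, b.repr_self, Finsupp.sub_apply, Finsupp.smul_apply, Finsupp.single_apply, hbw]
    congr 1
    by_cases h : i = j
    · simp [h]
    · simp [h, Ne.symm h]
  refine ⟨e1 ▸ M.det.2, ?_⟩
  rw [e1]
  change evH x hx M.det = _
  rw [RingHom.map_det, det_tri _ (fun i => i.2) fun i j h h' => by rw [e2 i j h', if_neg h],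
    prod_congr rfl fun i _ => (e2 i i le_rfl).trans (if_pos rfl), Fintype.prod_sigma,
    ← prod_coe_sort S]
  simp

end Loc

theorem over_unique {y : Place k L} {x x' : Place k K} {e e' : ℕ} (h : Over y x e)
    (h' : Over y x' e') : x = x' ∧ e = e' := by
  obtain rfl : x = x' := x.eq_of_le x' fun a ha => by
    have h1 : x'.val a ^ e' ≤ 1 := by rw [← h'.2, h.2]; exact pow_le_one' ha _
    exact (pow_le_one_iff h'.1.ne').1 h1
  obtain ⟨t, ht⟩ := x.exists_unif
  have h1 := (h.2 t).symm.trans (h'.2 t)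
  rw [ht, exp_pow, exp_pow, exp_inj] at h1
  exact ⟨rfl, by omega⟩

section Glob

variable [IsScalarTower k K L] [FiniteDimensional K L] {x : Place k K} {S : Finset (Place k L)}
  {e : Place k L → ℕ} (hO : ∀ y ∈ S, Over y x (e y)) (hs : ∑ y ∈ S, e y = finrank K L)
  (hx : x.Res) (hy : ∀ y ∈ S, y.Res)
  (ha : ∀ n : Place k L → ℤ, ∃ z : L, z ≠ 0 ∧ ∀ v ∈ S, v.ord z = n v)

include hO hs hx hy ha

theorem norm_ev (f : L) (hf : ∀ y ∈ S, y.val f ≤ 1) : x.val (Algebra.norm K f) ≤ 1 ∧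
    x.ev (Algebra.norm K f) = ∏ y ∈ S, y.ev f ^ e y := by
  classical
  choose w w0 hw using fun j : Σ y : S, Fin (e y) =>
    ha fun v => if v = j.1.1 then (j.2 : ℤ) else e v
  refine norm_ev' hO (w := w) (fun j => ?_) (fun j y h => ?_) hs hx hy f hf
  · rw [Place.val_eq _ (Place.val_ne _ (w0 j)), hw j _ j.1.2, if_pos rfl]
  · rw [Place.val_eq _ (Place.val_ne _ (w0 j)), hw j _ y.2, if_neg fun h' => h (Subtype.ext h')]

theorem norm_ord (f : L) : x.ord (Algebra.norm K f) = ∑ y ∈ S, y.ord f := by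
  classical
  rcases eq_or_ne f 0 with rfl | hf
  · simp
  choose π π0 hπ using fun y : Place k L => ha fun v => if v = y then 1 else 0
  have hN : ∀ g : L, g ≠ 0 → x.val (Algebra.norm K g) ≠ 0 := fun g hg =>
    x.val_ne (Algebra.norm_ne_zero_iff.2 hg)
  have hu : ∀ g : L, g ≠ 0 → (∀ y ∈ S, y.ord g = 0) → x.ord (Algebra.norm K g) = 0 := by
    intro g hg h
    have h1 : ∀ y ∈ S, y.val g = 1 := fun y hy => (y.val_one_iff (y.val_ne hg)).2 (h y hy)
    obtain ⟨h2, h3⟩ := norm_ev hO hs hx hy ha g fun y hy => (h1 y hy).le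
    refine x.ord_of_val_one (le_antisymm h2 (not_lt.1 fun h4 => ?_))
    rw [x.ev_of_lt h4] at h3
    exact prod_ne_zero_iff.2 (fun y hy' => pow_ne_zero _ ((hy y hy').ev_ne_zero (h1 y hy'))) h3.symm
  have hp : ∀ y ∈ S, 1 ≤ x.ord (Algebra.norm K (π y)) := by
    intro y hyS
    obtain ⟨h2, h3⟩ := norm_ev hO hs hx hy ha (π y) fun v hv => by
      rw [v.val_le_one (v.val_ne (π0 y)), hπ y v hv]
      split_ifs <;> omega
    rw [prod_eq_zero hyS (by
      rw [y.ev_of_lt (by rw [y.val_lt_one (y.val_ne (π0 y)), hπ y y hyS, if_pos rfl]; omega),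
        zero_pow (hO y hyS).1.ne'])] at h3
    exact (x.val_lt_one (hN _ (π0 y))).1 ((hx.ev_eq_zero h2).1 h3)
  have hz : ∀ (g : L) (n : ℤ), g ≠ 0 →
      x.ord (Algebra.norm K (g ^ n)) = n * x.ord (Algebra.norm K g) := fun g n hg => by
    rw [← x.ord_zpow, Algebra.norm_zpow]
  have hT : ∀ T : Finset (Place k L), T ⊆ S → ∀ g : L, g ≠ 0 → (∀ y ∈ S, y ∉ T → y.ord g = 0) →
      x.ord (Algebra.norm K g) = ∑ y ∈ T, y.ord g * x.ord (Algebra.norm K (π y)) := by
    intro T
    induction T using Finset.induction_on with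
    | empty => exact fun _ g hg h => hu g hg fun y hy => h y hy (notMem_empty _)
    | insert a T haT ih =>
      intro hS g hg h
      have h0 : π a ^ (-a.ord g) ≠ 0 := zpow_ne_zero _ (π0 a)
      have h1 : ∀ y ∈ S, y.ord (g * π a ^ (-a.ord g)) = if y = a then 0 else y.ord g := by
        intro y hy
        rw [y.ord_mul (y.val_ne hg) (y.val_ne h0), y.ord_zpow, hπ a y hy]
        split_ifs with h2
        · rw [h2]; ring
        · ring
      have h2 := ih ((subset_insert _ _).trans hS) _ (mul_ne_zero hg h0) fun y hy hyT => by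
        rw [h1 y hy]
        split_ifs with h2
        · rfl
        · exact h y hy fun h3 => (mem_insert.1 h3).elim h2 hyT
      rw [map_mul, x.ord_mul (hN _ hg) (hN _ h0), hz _ _ (π0 a), sum_congr rfl fun y hy => by
        rw [h1 y (hS (mem_insert_of_mem hy)), if_neg (ne_of_mem_of_not_mem hy haT)]] at h2
      rw [sum_insert haT]
      linarith
  have hg := fun g hg => hT S Subset.rfl g hg fun y hy h => absurd hy h
  obtain ⟨τ, hτ⟩ := x.exists_unif
  have hτ0 : τ ≠ 0 := fun h => by rw [h, map_zero] at hτ; exact exp_ne_zero hτ.symm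
  have h1 := hg (algebraMap K L τ) (by simpa using hτ0)
  rw [Algebra.norm_algebraMap, x.ord_pow, x.ord_eq hτ, ← hs, mul_one, Nat.cast_sum] at h1
  have h2 := (sum_eq_sum_iff_of_le fun y hy => le_mul_of_one_le_right (Nat.cast_nonneg (e y))
    (hp y hy)).1 (h1.trans (sum_congr rfl fun y hy => by
      rw [y.ord_eq (n := e y) (by rw [(hO y hy).2, hτ, exp_pow, mul_neg, mul_one])]))
  rw [hg f hf]
  refine sum_congr rfl fun y hy => ?_
  have h3 : (e y : ℤ) ≠ 0 := by exact_mod_cast (hO y hy).1.ne'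
  rw [mul_left_cancel₀ h3 ((h2 y hy).symm.trans (mul_one _).symm), mul_one]

end Glob

open Pool.Agent.MP_cce4c9_lc.H7 in
theorem norm (hE : StmtEXT) : StmtNORM := by
  intro k K L _ _ _ _ _ _ _ _ _ hK dn e hO f
  classical
  obtain ⟨dn', e', hO', hS⟩ := hE k K L hK
  obtain rfl : dn = dn' := funext fun y => (over_unique (hO y) (hO' y)).1
  obtain rfl : e = e' := funext fun y => (over_unique (hO y) (hO' y)).2
  have hL := hK.of_finite L
  refine ⟨?_, fun x S hx hf => ?_⟩
  · ext x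
    obtain ⟨S, h1, h2⟩ := hS x
    rw [dv_apply (fins hK _), norm_ord (fun y hy => (h1 y).1 hy ▸ hO y) h2 (res hK x)
      (fun y _ => res hL y) (apx_ord S), Finsupp.mapDomain, Finsupp.sum_apply, Finsupp.sum]
    simp only [Finsupp.single_apply, ← sum_filter, ← dv_apply (fins hL f)]
    refine (sum_subset (fun y hy => (h1 y).2 (mem_filter.1 hy).2) fun y hy h => ?_).symm
    exact Finsupp.notMem_support_iff.1 fun h' => h (mem_filter.2 ⟨h', (h1 y).1 hy⟩)
  · obtain ⟨S', h1, h2⟩ := hS x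
    obtain rfl : S = S' := Finset.ext fun y => (hx y).trans (h1 y).symm
    exact norm_ev (fun y hy => (h1 y).1 hy ▸ hO y) h2 (res hK x) (fun y _ => res hL y)
      (apx_ord S) f hf

end Pool.Agent.MP_cce4c9_lc.H16
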