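import Pool.Agent.MP_cce4c9_lc.H87.SpecR

/-!
The search for locally constant roots of unity.
-/

set_option autoImplicit false

open Polynomial Finset

namespace Pool.Agent.MP_cce4c9_lc.H16

open H87 H87.Cv

theorem hat_congr {k : Type} [Field k] {d m : ℕ} {f : k[X]} (C : Cv k d m f) (N : ℕ)
    {c c' : ℕ → ℕ → k} (h : ∀ J < d ^ m, ∀ e, c e J = c' e J) : C.hat N c = C.hat N c' :=
  sum_congr rfl fun J hJ => sum_congr rfl fun e _ => by rw [h J (mem_range.1 hJ) e]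

theorem tb_tab0 {S : Type} [Zero S] {φ : El → S} (h0 : φ [] = 0) (d m : ℕ) (b : List El)
    (e : ℕ) {J : ℕ} (hJ : J < d ^ m) :
    tb φ (tab0 d m b) e J = if e ≤ w0 d m then φ (b.getD (J + d ^ m * e) []) else 0 := by
  rw [tb, tab0]
  split_ifs with h
  · rw [ent_mat _ (by omega) hJ]
  · rw [← h0]
    have : ¬ e < w0 d m + 1 := by omega
    simp [ent, mat, List.getD_eq_getElem?_getD, this]

theorem idx_lt {d m e J : ℕ} (hJ : J < d ^ m) (he : e ≤ w0 d m) : J + d ^ m * e < nV0 d m := by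
  have := Nat.mul_le_mul_left (d ^ m) he
  rw [nV0, mul_add, mul_one]
  omega

theorem sk0 (hT : StmtTST0) (hS : StmtSYS0) (hV : StmtSOLVE) : StmtSK0 := by
  intro F k _ _ _ D π ι fl d m l _ f C σ hI hσ hA hR
  classical
  have hd : 0 < d ^ m := pow_pos (by have := C.hd; omega) m
  have sol := hV F k D π ι (nV0 d m) (l + 1) [sys0 D fl d m l] (Nat.succ_pos l)
  have one : ∀ B φ (c : Tab), IsPt π ι B φ → (φ (tst0 fl d m l B [c] [l]) ≠ 0 ↔
      C.hat (2 * w0 d m) (tb φ c) ^ l = C.dlh ^ l) := fun B φ c hp => by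
    rw [hT F k D π ι fl d m l f C B φ [c] [l] hI hA hp rfl (by simp)]
    simp
  refine ⟨sol.1, hR.fn0, fun B φ b pat _ hp hne => (hR.iff0 _).2 ((one B φ _ hp).1 hne),
    fun x => ?_, fun c x h => hR.fr0 _ σ hσ c x h, fun B φ cl al x hp h1 h2 h3 => ?_⟩
  · obtain ⟨c, hc, c0⟩ := hR.ex0 x
    obtain ⟨Z, hZ⟩ := hR.fin0
    have ag : ∀ J < d ^ m, ∀ e, c e J = if e ≤ w0 d m then
        ex (fun i : Fin (nV0 d m) => c (i / d ^ m) (i % d ^ m)) (J + d ^ m * e) else 0 := by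
      intro J hJ e
      split_ifs with h
      · rw [ex, dif_pos (idx_lt hJ h)]
        simp only [Nat.add_mul_div_left _ _ hd, Nat.add_mul_mod_self_left, Nat.div_eq_of_lt hJ,
          Nat.mod_eq_of_lt hJ, zero_add]
      · exact c0 e J (Or.inl (by omega))
    refine ⟨([], [], []), by simp, fun i => c (i / d ^ m) (i % d ^ m),
      sol.2 (sys0 D fl d m l) (by simp) _ ⟨?_, 1, by simp, Z, fun b hb _ i => ?_⟩, fun B φ b hp hb => ?_⟩
    · refine (hS F k D π ι fl d m l f C _ hI hA).2 ?_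
      rw [← hat_congr C _ ag]
      exact (hR.iff0 c).1 ⟨x, hc⟩
    · obtain ⟨y, hy⟩ := (hR.iff0 _).2 ((hS F k D π ι fl d m l f C b hI hA).1 hb)
      have hi : i.1 / d ^ m ≤ w0 d m :=
        Nat.lt_succ_iff.1 (Nat.div_lt_of_lt_mul (show i.1 < d ^ m * (w0 d m + 1) from i.2))
      have := hZ _ y hy (i.1 % d ^ m) (Nat.mod_lt _ hd) (i.1 / d ^ m) hi
      rwa [if_pos hi, Nat.mod_add_div, ex, dif_pos i.2] at this
    · have hr : C.Rp0 l (tb φ (tab0 d m b)) x := hR.cg0 c _ x (fun J hJ e _ => by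
        rw [tb_tab0 hp.hm.nil d m b e hJ, ag J hJ e, hb]) hc
      exact ⟨(one B φ _ hp).2 ((hR.iff0 _).1 ⟨x, hr⟩), hr⟩
  · rw [hT F k D π ι fl d m l f C B φ cl al hI hA hp h1 h2]
    have e := hR.tst0 cl.length (fun i => tb φ (cl.getD i [])) x (fun i => al.getD i 0) h3
    by_cases h : ∑ i ∈ range cl.length, al.getD i 0 • x i = 0
    · rw [if_pos h, if_pos (e.2 h)]
    · rw [if_neg h, if_neg fun h' => h (e.1 h')]

end Pool.Agent.MP_cce4c9_lc.H16
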